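import Mathlib

/-!
Kernel-friendly checker for RUP proofs with hints.
Literal codes: variable `v` positive is `2*v`, negative is `2*v+1`.
A clause is stored as the bit mask of its literal codes.
-/

namespace Pool.Agent.Shared.RUP

/-- value of a literal code under an assignment -/
def lit (a : ℕ → Bool) (l : ℕ) : Bool := if l % 2 = 0 then a (l / 2) else !(a (l / 2))

/-- the clause with bit mask `c` is satisfied -/
def Sat (a : ℕ → Bool) (c : ℕ) : Prop := ∃ i, c.testBit i = true ∧ lit a i = true

inductive DB : Type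
  | leaf : ℕ → DB
  | node : ℕ → DB → DB → DB

noncomputable def force {α : Type} (n : ℕ) (k : ℕ → α) : α :=
  Nat.rec (motive := fun _ => α) (k 0) (fun m _ => k (Nat.succ m)) n

theorem force_eq {α : Type} (n : ℕ) (k : ℕ → α) : force n k = k n := by
  cases n <;> rfl

noncomputable def get (i : ℕ) (t : DB) : ℕ :=
  DB.rec (motive := fun _ => ℕ) (fun c => c)
    (fun m _ _ a b => Nat.rec (motive := fun _ => ℕ) a (fun _ _ => b) (Nat.land i m)) t

noncomputable def ins (i c : ℕ) (t : DB) : (DB → Bool) → Bool :=
  DB.rec (motive := fun _ => (DB → Bool) → Bool) (fun _ k => k (DB.leaf c))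
    (fun m l r a b k => Nat.rec (motive := fun _ => Bool) (a (fun l' => k (DB.node m l' r)))
      (fun _ _ => b (fun r' => k (DB.node m l r'))) (Nat.land i m)) t

noncomputable def mk (d : ℕ) : (DB → Bool) → Bool :=
  Nat.rec (motive := fun _ => (DB → Bool) → Bool) (fun k => k (DB.leaf 3))
    (fun j ih k => ih (fun t => force (Nat.shiftLeft 1 j) (fun m => k (DB.node m t t)))) d

noncomputable def rup (w B : ℕ) (db : DB) (fuel : ℕ) : ℕ → ℕ → Bool :=
  Nat.rec (motive := fun _ => ℕ → ℕ → Bool) (fun _ _ => false)
    (fun _ ih hs G =>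
      force (Nat.land hs B) fun i =>
      Nat.rec (motive := fun _ => Bool) true
        (fun m _ =>
          Nat.rec (motive := fun _ => Bool)
            (force (Nat.xor G (Nat.shiftRight (Nat.shiftLeft (Nat.succ m) 3)
                (Nat.shiftLeft (Nat.mod (Nat.succ m) 3) 1))) fun G' =>
              force (Nat.shiftRight hs w) fun hs' => ih hs' G')
            (fun _ _ => false) (Nat.land (Nat.succ m) m))
        (Nat.land (get i db) G)) fuel

noncomputable def decF (w B fuel : ℕ) : ℕ → ℕ → ℕ :=
  Nat.rec (motive := fun _ => ℕ → ℕ → ℕ) (fun _ acc => acc)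
    (fun _ ih code acc =>
      Nat.rec (motive := fun _ => ℕ) acc
        (fun l _ => force (Nat.lor acc (Nat.shiftLeft 1 l)) fun acc' =>
          force (Nat.shiftRight code w) fun code' => ih code' acc')
        (Nat.land code B)) fuel

noncomputable def dec (w B fuel : ℕ) : ℕ → ℕ → (ℕ → ℕ → Bool) → Bool :=
  Nat.rec (motive := fun _ => ℕ → ℕ → (ℕ → ℕ → Bool) → Bool) (fun _ _ _ => false)
    (fun _ ih code acc k =>
      Nat.rec (motive := fun _ => Bool) (force (Nat.shiftRight code w) fun rest => k acc rest)
        (fun l _ => force (Nat.lor acc (Nat.shiftLeft 1 l)) fun acc' =>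
          force (Nat.shiftRight code w) fun code' => ih code' acc' k)
        (Nat.land code B)) fuel

/-- the clause mask coded by a number: base `2^w` digits `l+1`, ended by a zero digit -/
noncomputable def decode (w code : ℕ) : ℕ := decF w (Nat.pred (Nat.shiftLeft 1 w)) 1000000 code 0

noncomputable def run (w B U : ℕ) (steps : List ℕ) : DB → (DB → Bool) → Bool :=
  List.rec (motive := fun _ => DB → (DB → Bool) → Bool) (fun db k => k db)
    (fun code _ ih db k =>
      dec w B 1000000 code 0 fun c rest =>
        Bool.rec (motive := fun _ => Bool) false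
          (force (Nat.land rest B) fun s => ins s c db fun db' => ih db' k)
          (force (Nat.xor U c) fun G => force (Nat.shiftRight rest w) fun hs =>
            rup w B db 100000000 hs G)) steps

noncomputable def runs (w B U : ℕ) (ss : List (List ℕ)) : DB → (DB → Bool) → Bool :=
  List.rec (motive := fun _ => DB → (DB → Bool) → Bool) (fun db k => k db)
    (fun s _ ih db k => run w B U s db fun db' => ih db' k) ss

noncomputable def load {α : Type} (f : α → ℕ) (U : ℕ) (xs : List α) :
    ℕ → DB → (ℕ → DB → Bool) → Bool :=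
  List.rec (motive := fun _ => ℕ → DB → (ℕ → DB → Bool) → Bool) (fun s db k => k s db)
    (fun x _ ih s db k =>
      force (f x) fun c =>
        Bool.rec (motive := fun _ => Bool) false
          (ins s c db fun db' => force (Nat.succ s) fun s' => ih s' db' k)
          (Nat.ble c U)) xs

noncomputable def loads {α : Type} (f : α → ℕ) (U : ℕ) (xss : List (List α)) :
    ℕ → DB → (ℕ → DB → Bool) → Bool :=
  List.rec (motive := fun _ => ℕ → DB → (ℕ → DB → Bool) → Bool) (fun s db k => k s db)
    (fun xs _ ih s db k => load f U xs s db fun s' db' => ih s' db' k) xss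

/-- `nv` variables, digit width `w`, trie depth `d`; inputs go to the slots `1, 2, ...` -/
noncomputable def check {α : Type} (f : α → ℕ) (nv w d : ℕ) (inp : List (List α))
    (steps outs : List (List ℕ)) : Bool :=
  force (Nat.pred (Nat.shiftLeft 1 (Nat.shiftLeft (Nat.succ nv) 1))) fun U =>
  force (Nat.pred (Nat.shiftLeft 1 w)) fun B =>
  mk d fun db0 =>
  loads f U inp 1 db0 fun _ db1 =>
  runs w B U steps db1 fun db2 =>
  runs w B U outs db2 fun _ => true

/-- mask of a list of literal codes -/
noncomputable def maskOf (C : List ℕ) : ℕ :=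
  List.rec (motive := fun _ => ℕ) 0 (fun l _ ih => Nat.lor (Nat.shiftLeft 1 l) ih) C

/-! ### Soundness -/

def SatU (a : ℕ → Bool) (U c : ℕ) : Prop :=
  ∃ i, c.testBit i = true ∧ U.testBit i = true ∧ lit a i = true

def Ok (a : ℕ → Bool) (U : ℕ) : DB → Prop
  | DB.leaf c => SatU a U c
  | DB.node _ l r => Ok a U l ∧ Ok a U r

theorem get_ok {a : ℕ → Bool} {U : ℕ} (i : ℕ) : ∀ t : DB, Ok a U t → SatU a U (get i t) := by
  intro t
  induction t with
  | leaf c => intro h; exact h
  | node m l r ihl ihr =>
    intro h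
    show SatU a U (Nat.rec (motive := fun _ => ℕ) (get i l) (fun _ _ => get i r) (Nat.land i m))
    cases Nat.land i m with
    | zero => exact ihl h.1
    | succ n => exact ihr h.2

theorem ins_ok {a : ℕ → Bool} {U : ℕ} (i c : ℕ) (hc : SatU a U c) :
    ∀ (t : DB) (k : DB → Bool), Ok a U t → ins i c t k = true →
      ∃ t', Ok a U t' ∧ k t' = true := by
  intro t
  induction t with
  | leaf c' => intro k _ h; exact ⟨DB.leaf c, hc, h⟩
  | node m l r ihl ihr =>
    intro k ho h
    have h' : Nat.rec (motive := fun _ => Bool) (ins i c l (fun l' => k (DB.node m l' r)))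
      (fun _ _ => ins i c r (fun r' => k (DB.node m l r'))) (Nat.land i m) = true := h
    revert h'
    cases Nat.land i m with
    | zero =>
      intro h'
      obtain ⟨t', h1, h2⟩ := ihl _ ho.1 h'
      exact ⟨DB.node m t' r, ⟨h1, ho.2⟩, h2⟩
    | succ n =>
      intro h'
      obtain ⟨t', h1, h2⟩ := ihr _ ho.2 h'
      exact ⟨DB.node m l t', ⟨ho.1, h1⟩, h2⟩

theorem mk_ok {a : ℕ → Bool} {U : ℕ} (h3 : SatU a U 3) :
    ∀ (d : ℕ) (k : DB → Bool), mk d k = true → ∃ t, Ok a U t ∧ k t = true := by
  intro d
  induction d with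
  | zero => intro k h; exact ⟨DB.leaf 3, h3, h⟩
  | succ j ih =>
    intro k h
    have h' : mk j (fun t => force (Nat.shiftLeft 1 j) (fun m => k (DB.node m t t))) = true := h
    obtain ⟨t, h1, h2⟩ := ih _ h'
    rw [force_eq] at h2
    exact ⟨DB.node _ t t, ⟨h1, h1⟩, h2⟩

theorem pow_of_land_pred : ∀ m : ℕ, (m + 1) &&& m = 0 → ∃ i, m + 1 = 2 ^ i := by
  intro m
  induction m using Nat.strong_induction_on with
  | _ m ih =>
    intro h
    rcases Nat.eq_zero_or_pos m with rfl | hm
    · exact ⟨0, rfl⟩
    have hd : ((m + 1) / 2) &&& (m / 2) = 0 := by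
      rw [← Nat.and_div_two, h]
    rcases Nat.even_or_odd' m with ⟨q, hq | hq⟩
    · exfalso
      have e1 : (m + 1) / 2 = q := by omega
      have e2 : m / 2 = q := by omega
      rw [e1, e2, Nat.and_self] at hd
      omega
    · have e1 : (m + 1) / 2 = q + 1 := by omega
      have e2 : m / 2 = q := by omega
      rw [e1, e2] at hd
      obtain ⟨i, hi⟩ := ih q (by omega) hd
      exact ⟨i + 1, by rw [pow_succ]; omega⟩

theorem two_pow_mod_three (i : ℕ) : 2 ^ i % 3 = if i % 2 = 0 then 1 else 2 := by
  induction i with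
  | zero => rfl
  | succ n ih =>
    rw [pow_succ, Nat.mul_mod, ih]
    rcases Nat.mod_two_eq_zero_or_one n with h | h
    · have : (n + 1) % 2 = 1 := by omega
      simp [h, this]
    · have : (n + 1) % 2 = 0 := by omega
      simp [h, this]

theorem neg_mask (a : ℕ → Bool) (i : ℕ) (hi : lit a i = true) :
    ∃ j, ((2 ^ i) <<< 3) >>> (((2 ^ i) % 3) <<< 1) = 2 ^ j ∧ lit a j = false := by
  rw [two_pow_mod_three]
  rcases Nat.mod_two_eq_zero_or_one i with h | h
  · refine ⟨i + 1, ?_, ?_⟩
    · simp only [h, if_true, Nat.shiftLeft_eq, Nat.shiftRight_eq_div_pow]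
      have : 2 ^ i * 2 ^ 3 = 2 ^ (i + 1) * 2 ^ (1 * 2 ^ 1) := by ring
      rw [this, Nat.mul_div_cancel _ (by positivity)]
    · have e1 : (i + 1) % 2 = 1 := by omega
      have e2 : (i + 1) / 2 = i / 2 := by omega
      simp only [lit, h, if_true] at hi
      simp [lit, e1, e2, hi]
  · obtain ⟨j, rfl⟩ : ∃ j, i = j + 1 := ⟨i - 1, by omega⟩
    refine ⟨j, ?_, ?_⟩
    · simp only [h, one_ne_zero, if_false, Nat.shiftLeft_eq, Nat.shiftRight_eq_div_pow]
      have : 2 ^ (j + 1) * 2 ^ 3 = 2 ^ j * 2 ^ (2 * 2 ^ 1) := by ring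
      rw [this, Nat.mul_div_cancel _ (by positivity)]
    · have e1 : j % 2 = 0 := by omega
      have e2 : (j + 1) / 2 = j / 2 := by omega
      simp only [lit, h, one_ne_zero, if_false, e2] at hi
      simp only [lit, e1, if_true]
      simpa using hi

theorem rup_ok {a : ℕ → Bool} {U : ℕ} (w B : ℕ) (db : DB) (hdb : Ok a U db) :
    ∀ (fuel hs G : ℕ), (∀ i, U.testBit i = true → lit a i = true → G.testBit i = true) →
      rup w B db fuel hs G = true → False := by
  intro fuel
  induction fuel with
  | zero => intro hs G _ h; exact absurd h (by simp [rup])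
  | succ n ih =>
    intro hs G hG h
    have h' : (force (Nat.land hs B) fun i =>
      Nat.rec (motive := fun _ => Bool) true
        (fun m _ =>
          Nat.rec (motive := fun _ => Bool)
            (force (Nat.xor G (Nat.shiftRight (Nat.shiftLeft (Nat.succ m) 3)
                (Nat.shiftLeft (Nat.mod (Nat.succ m) 3) 1))) fun G' =>
              force (Nat.shiftRight hs w) fun hs' => rup w B db n hs' G')
            (fun _ _ => false) (Nat.land (Nat.succ m) m))
        (Nat.land (get i db) G)) = true := h
    rw [force_eq] at h'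
    obtain ⟨i, hi1, hi2, hi3⟩ := get_ok (Nat.land hs B) db hdb
    have hR : (Nat.land (get (Nat.land hs B) db) G).testBit i = true := by
      show ((get (Nat.land hs B) db) &&& G).testBit i = true
      rw [Nat.testBit_and, hi1, hG i hi2 hi3]; rfl
    revert h' hR
    cases Nat.land (get (Nat.land hs B) db) G with
    | zero => intro _ hR; simp at hR
    | succ m =>
      intro h' hR
      have h2 : Nat.rec (motive := fun _ => Bool)
            (force (Nat.xor G (Nat.shiftRight (Nat.shiftLeft (Nat.succ m) 3)
                (Nat.shiftLeft (Nat.mod (Nat.succ m) 3) 1))) fun G' =>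
              force (Nat.shiftRight hs w) fun hs' => rup w B db n hs' G')
            (fun _ _ => false) (Nat.land (Nat.succ m) m) = true := h'
      cases hl : Nat.land (Nat.succ m) m with
      | succ q => rw [hl] at h2; exact absurd h2 (by simp)
      | zero =>
        rw [hl] at h2
        have h3 : (force (Nat.xor G (Nat.shiftRight (Nat.shiftLeft (Nat.succ m) 3)
                (Nat.shiftLeft (Nat.mod (Nat.succ m) 3) 1))) fun G' =>
              force (Nat.shiftRight hs w) fun hs' => rup w B db n hs' G') = true := h2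
        rw [force_eq, force_eq] at h3
        obtain ⟨e, he⟩ := pow_of_land_pred m hl
        have hie : i = e := by
          rw [he, Nat.testBit_two_pow] at hR
          exact (of_decide_eq_true hR).symm
        subst hie
        obtain ⟨j, hj1, hj2⟩ := neg_mask a i hi3
        refine ih _ _ ?_ h3
        intro i' hU hl'
        show (G ^^^ (((m + 1) <<< 3) >>> (((m + 1) % 3) <<< 1))).testBit i' = true
        rw [he, hj1, Nat.testBit_xor, hG i' hU hl', Nat.testBit_two_pow]
        have : j ≠ i' := by
          intro hh; rw [hh, hl'] at hj2; exact absurd hj2 (by simp)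
        simp [this]

theorem dec_ok (w B : ℕ) : ∀ (fuel code acc : ℕ) (k : ℕ → ℕ → Bool),
    dec w B fuel code acc k = true → ∃ rest, k (decF w B fuel code acc) rest = true := by
  intro fuel
  induction fuel with
  | zero => intro code acc k h; exact absurd h (by simp [dec])
  | succ n ih =>
    intro code acc k h
    have h' : Nat.rec (motive := fun _ => Bool)
        (force (Nat.shiftRight code w) fun rest => k acc rest)
        (fun l _ => force (Nat.lor acc (Nat.shiftLeft 1 l)) fun acc' =>
          force (Nat.shiftRight code w) fun code' => dec w B n code' acc' k)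
        (Nat.land code B) = true := h
    show ∃ rest, k (Nat.rec (motive := fun _ => ℕ) acc
        (fun l _ => force (Nat.lor acc (Nat.shiftLeft 1 l)) fun acc' =>
          force (Nat.shiftRight code w) fun code' => decF w B n code' acc')
        (Nat.land code B)) rest = true
    revert h'
    cases Nat.land code B with
    | zero =>
      intro h'
      have h2 : (force (Nat.shiftRight code w) fun rest => k acc rest) = true := h'
      rw [force_eq] at h2
      exact ⟨_, h2⟩
    | succ l =>
      intro h'
      have h2 : (force (Nat.lor acc (Nat.shiftLeft 1 l)) fun acc' =>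
          force (Nat.shiftRight code w) fun code' => dec w B n code' acc' k) = true := h'
      rw [force_eq, force_eq] at h2
      obtain ⟨rest, hr⟩ := ih _ _ _ h2
      refine ⟨rest, ?_⟩
      show k (force (Nat.lor acc (Nat.shiftLeft 1 l)) fun acc' =>
          force (Nat.shiftRight code w) fun code' => decF w B n code' acc') rest = true
      rw [force_eq, force_eq]
      exact hr

theorem run_ok {a : ℕ → Bool} {U : ℕ} (w B : ℕ) : ∀ (steps : List ℕ) (db : DB) (k : DB → Bool),
    Ok a U db → run w B U steps db k = true →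
      (∀ c ∈ steps, SatU a U (decF w B 1000000 c 0)) ∧ ∃ db', Ok a U db' ∧ k db' = true := by
  intro steps
  induction steps with
  | nil => intro db k ho h; exact ⟨by simp, db, ho, h⟩
  | cons code tl ih =>
    intro db k ho h
    have h' : (dec w B 1000000 code 0 fun c rest =>
        Bool.rec (motive := fun _ => Bool) false
          (force (Nat.land rest B) fun s => ins s c db fun db' => run w B U tl db' k)
          (force (Nat.xor U c) fun G => force (Nat.shiftRight rest w) fun hs =>
            rup w B db 100000000 hs G)) = true := h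
    obtain ⟨rest, hr⟩ := dec_ok _ _ _ _ _ _ h'
    generalize hc : decF w B 1000000 code 0 = c at hr
    rw [force_eq, force_eq, force_eq] at hr
    cases hrup : rup w B db 100000000 (Nat.shiftRight rest w) (Nat.xor U c) with
    | false => rw [hrup] at hr; exact absurd hr (by simp)
    | true =>
      rw [hrup] at hr
      have hs : SatU a U c := by
        by_contra hn
        refine rup_ok w B db ho _ _ _ ?_ hrup
        intro i hU hl
        show (U ^^^ c).testBit i = true
        rw [Nat.testBit_xor, hU]
        cases hci : c.testBit i with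
        | false => rfl
        | true => exact absurd ⟨i, hci, hU, hl⟩ hn
      obtain ⟨t', h1, h2⟩ := ins_ok _ c hs db _ ho hr
      obtain ⟨h3, h4⟩ := ih _ _ h1 h2
      refine ⟨?_, h4⟩
      intro c' hc'
      rcases List.mem_cons.1 hc' with rfl | hc'
      · rw [hc]; exact hs
      · exact h3 _ hc'

theorem runs_ok {a : ℕ → Bool} {U : ℕ} (w B : ℕ) :
    ∀ (ss : List (List ℕ)) (db : DB) (k : DB → Bool),
    Ok a U db → runs w B U ss db k = true →
      (∀ s ∈ ss, ∀ c ∈ s, SatU a U (decF w B 1000000 c 0)) ∧ ∃ db', Ok a U db' ∧ k db' = true := by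
  intro ss
  induction ss with
  | nil => intro db k ho h; exact ⟨by simp, db, ho, h⟩
  | cons s tl ih =>
    intro db k ho h
    have h' : (run w B U s db fun db' => runs w B U tl db' k) = true := h
    obtain ⟨h1, db', h2, h3⟩ := run_ok w B s db _ ho h'
    obtain ⟨h4, h5⟩ := ih _ _ h2 h3
    refine ⟨?_, h5⟩
    intro s' hs'
    rcases List.mem_cons.1 hs' with rfl | hs'
    · exact h1
    · exact h4 _ hs'

theorem satU_of_le {a : ℕ → Bool} {n c : ℕ} (hc : c ≤ 2 ^ n - 1) (h : Sat a c) :
    SatU a (2 ^ n - 1) c := by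
  obtain ⟨i, h1, h2⟩ := h
  refine ⟨i, h1, ?_, h2⟩
  rw [Nat.testBit_two_pow_sub_one]
  have h3 : 2 ^ i ≤ c := Nat.ge_two_pow_of_testBit h1
  have h4 : 2 ^ i < 2 ^ n := by
    have : 0 < 2 ^ n := by positivity
    omega
  simpa using (Nat.pow_lt_pow_iff_right (by norm_num : 1 < 2)).1 h4

theorem load_ok {α : Type} {a : ℕ → Bool} (f : α → ℕ) (n : ℕ) :
    ∀ (xs : List α) (s : ℕ) (db : DB) (k : ℕ → DB → Bool),
    (∀ x ∈ xs, Sat a (f x)) → Ok a (2 ^ n - 1) db → load f (2 ^ n - 1) xs s db k = true →
      ∃ s' db', Ok a (2 ^ n - 1) db' ∧ k s' db' = true := by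
  intro xs
  induction xs with
  | nil => intro s db k _ ho h; exact ⟨s, db, ho, h⟩
  | cons x tl ih =>
    intro s db k hx ho h
    have h' : (force (f x) fun c =>
        Bool.rec (motive := fun _ => Bool) false
          (ins s c db fun db' => force (Nat.succ s) fun s' => load f (2 ^ n - 1) tl s' db' k)
          (Nat.ble c (2 ^ n - 1))) = true := h
    rw [force_eq] at h'
    cases hb : Nat.ble (f x) (2 ^ n - 1) with
    | false => rw [hb] at h'; exact absurd h' (by simp)
    | true =>
      rw [hb] at h'
      have hs := satU_of_le (Nat.le_of_ble_eq_true hb) (hx x (by simp))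
      obtain ⟨t', h1, h2⟩ := ins_ok _ _ hs db _ ho h'
      rw [force_eq] at h2
      exact ih _ _ _ (fun y hy => hx y (by simp [hy])) h1 h2

theorem loads_ok {α : Type} {a : ℕ → Bool} (f : α → ℕ) (n : ℕ) :
    ∀ (xss : List (List α)) (s : ℕ) (db : DB) (k : ℕ → DB → Bool),
    (∀ xs ∈ xss, ∀ x ∈ xs, Sat a (f x)) → Ok a (2 ^ n - 1) db →
      loads f (2 ^ n - 1) xss s db k = true →
      ∃ s' db', Ok a (2 ^ n - 1) db' ∧ k s' db' = true := by
  intro xss
  induction xss with
  | nil => intro s db k _ ho h; exact ⟨s, db, ho, h⟩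
  | cons xs tl ih =>
    intro s db k hx ho h
    have h' : (load f (2 ^ n - 1) xs s db fun s' db' => loads f (2 ^ n - 1) tl s' db' k) = true := h
    obtain ⟨s', db', h1, h2⟩ := load_ok f n xs s db _ (hx xs (by simp)) ho h'
    exact ih _ _ _ (fun y hy => hx y (by simp [hy])) h1 h2

/-- every clause of the chunked list is satisfied -/
def SatAll {α : Type} (f : α → ℕ) (a : ℕ → Bool) (xss : List (List α)) : Prop :=
  ∀ xs ∈ xss, ∀ x ∈ xs, Sat a (f x)

theorem check_ok {α : Type} {f : α → ℕ} {nv w d : ℕ} {inp : List (List α)}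
    {steps outs : List (List ℕ)} (h : check f nv w d inp steps outs = true)
    (a : ℕ → Bool) (hin : SatAll f a inp) : SatAll (decode w) a outs := by
  unfold check at h
  rw [force_eq, force_eq] at h
  have hU : Nat.pred (Nat.shiftLeft 1 (Nat.shiftLeft (Nat.succ nv) 1)) = 2 ^ (2 * (nv + 1)) - 1 := by
    show (1 <<< ((nv + 1) <<< 1)) - 1 = _
    rw [Nat.shiftLeft_eq, Nat.shiftLeft_eq, one_mul, pow_one, mul_comm]
  rw [hU] at h
  have h3 : SatU a (2 ^ (2 * (nv + 1)) - 1) 3 := by
    apply satU_of_le
    · have : 2 ^ 2 ≤ 2 ^ (2 * (nv + 1)) := Nat.pow_le_pow_right (by norm_num) (by omega)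
      omega
    · cases h0 : a 0 with
      | true => exact ⟨0, by decide, by simp [lit, h0]⟩
      | false => exact ⟨1, by decide, by simp [lit, h0]⟩
  obtain ⟨db0, h01, h02⟩ := mk_ok h3 _ _ h
  obtain ⟨s1, db1, h11, h12⟩ := loads_ok f _ _ _ _ _ hin h01 h02
  obtain ⟨-, db2, h21, h22⟩ := runs_ok _ _ _ _ _ h11 h12
  obtain ⟨h31, -⟩ := runs_ok _ _ _ _ _ h21 h22
  intro xs hxs x hx
  obtain ⟨i, hi1, -, hi3⟩ := h31 xs hxs x hx
  exact ⟨i, hi1, hi3⟩

theorem SatAll.nil {α : Type} {f : α → ℕ} {a : ℕ → Bool} : SatAll f a [] := by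
  intro xs h; simp at h

theorem SatAll.append {α : Type} {f : α → ℕ} {a : ℕ → Bool} {x y : List (List α)}
    (h1 : SatAll f a x) (h2 : SatAll f a y) : SatAll f a (x ++ y) := by
  intro xs h
  rcases List.mem_append.1 h with h | h
  · exact h1 xs h
  · exact h2 xs h

theorem SatAll.left {α : Type} {f : α → ℕ} {a : ℕ → Bool} {x y : List (List α)}
    (h : SatAll f a (x ++ y)) : SatAll f a x :=
  fun xs hx => h xs (List.mem_append.2 (Or.inl hx))

theorem SatAll.right {α : Type} {f : α → ℕ} {a : ℕ → Bool} {x y : List (List α)}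
    (h : SatAll f a (x ++ y)) : SatAll f a y :=
  fun xs hx => h xs (List.mem_append.2 (Or.inr hx))

theorem SatAll.false_of_empty {w c : ℕ} {a : ℕ → Bool} (h : SatAll (decode w) a [[c]])
    (hc : Nat.beq (decode w c) 0 = true) : False := by
  obtain ⟨i, h1, -⟩ := h [c] (by simp) c (by simp)
  rw [Nat.eq_of_beq_eq_true hc] at h1
  simp at h1

theorem testBit_maskOf {C : List ℕ} {l : ℕ} (h : l ∈ C) : (maskOf C).testBit l = true := by
  induction C with
  | nil => simp at h
  | cons x tl ih =>
    show ((1 <<< x) ||| maskOf tl).testBit l = true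
    rw [Nat.testBit_or]
    rcases List.mem_cons.1 h with rfl | h
    · simp [Nat.shiftLeft_eq]
    · simp [ih h]

/-- entry point: a formula given as a list of clauses, each a list of literal codes -/
theorem satAll_of_cnf {a : ℕ → Bool} {cnf : List (List ℕ)}
    (h : ∀ C ∈ cnf, ∃ l ∈ C, lit a l = true) : SatAll maskOf a [cnf] := by
  intro xs hxs C hC
  rw [List.mem_singleton.1 hxs] at hC
  obtain ⟨l, h1, h2⟩ := h C hC
  exact ⟨l, testBit_maskOf h1, h2⟩

theorem lit_pos (a : ℕ → Bool) (v : ℕ) : lit a (2 * v) = a v := by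
  simp [lit]

theorem lit_neg (a : ℕ → Bool) (v : ℕ) : lit a (2 * v + 1) = !(a v) := by
  have e1 : (2 * v + 1) % 2 = 1 := by omega
  have e2 : (2 * v + 1) / 2 = v := by omega
  simp [lit, e1, e2]

end Pool.Agent.Shared.RUP
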